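import Pool.Agent.Lib.MP_3145b1_co.RBA.Spec

/-!
# MP_3145b1_co, project RBA: chain of the entropies (`S_ChnA`)
-/

set_option autoImplicit false

namespace Pool.Agent.MP3145b1.RBA

open Finset Pool.Agent.MP3145b1 Pool.Agent.MP3145b1.RB

private theorem Chn_empty {n : ℕ} (c : ℝ) : coeff (fun _ : Fin n → Bool => c) ∅ = c := by
  unfold coeff
  simp

private theorem Chn_const {n : ℕ} (c : ℝ) (hc : c = 1 ∨ c = -1) :
    ∑ T : Finset (Fin n), hh (coeff (fun _ : Fin n → Bool => c) T ^ 2) = 0 := by
  classical
  have hp := parseval (fun _ : Fin n → Bool => c) (fun _ => hc)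
  have hc2 : c ^ 2 = 1 := by
    rcases hc with h | h <;> rw [h] <;> norm_num
  rw [← Finset.add_sum_erase univ _ (Finset.mem_univ (∅ : Finset (Fin n))), Chn_empty, hc2] at hp
  have hz : ∑ T ∈ univ.erase (∅ : Finset (Fin n)), coeff (fun _ : Fin n → Bool => c) T ^ 2 = 0 := by
    linarith
  rw [Finset.sum_eq_zero_iff_of_nonneg (fun T _ => sq_nonneg _)] at hz
  apply Finset.sum_eq_zero
  intro T _
  by_cases hT : T = ∅
  · rw [hT, Chn_empty, hc2]
    unfold hh
    simp
  · rw [hz T (Finset.mem_erase.2 ⟨hT, Finset.mem_univ T⟩)]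
    unfold hh
    simp

open Classical in
private theorem Chn_gen (h1 : S_Nod) {w n : ℕ} (L : ℕ) (s : ℕ → Fin w → Bool → Fin w)
    (v : ℕ → Fin w → Option (Fin n)) (o : Fin w → ℝ) (A : ℕ → Finset (Fin w))
    (hok : Ok s v o L A) (ho : ∀ z, o z = 1 ∨ o z = -1) :
    ∀ (k t : ℕ) (x : Fin w), t + k = L → x ∈ A t →
      ∑ T : Finset (Fin n), hh (MT s v o L T t x ^ 2) =
        EV (tr s v) A (fun u y => ∑ T : Finset (Fin n), DT s v o L T u y) 0 k t x := by
  intro k
  induction k with
  | zero =>
    intro t x ht _
    rw [EV_zero]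
    have hL : L - t = 0 := by omega
    unfold MT
    rw [hL]
    exact Chn_const (o x) (ho x)
  | succ k ih =>
    intro t x ht hx
    have htL : t < L := by omega
    have hok1 := hok t htL x hx
    have hN := h1 w n L s v o A hok t htL x hx
    rw [EV_mem _ _ _ _ _ _ _ hx, ← ih (t + 1) (tr s v t x false) (by omega) (hok1.1 false),
      ← ih (t + 1) (tr s v t x true) (by omega) (hok1.1 true)]
    rcases hv : v t x with _ | i
    · have hN0 := hN.1 hv
      have hD : ∑ T : Finset (Fin n), DT s v o L T t x = 0 := by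
        apply Finset.sum_eq_zero
        intro T _
        unfold DT
        split_ifs
        · rfl
        · rw [← hN0 T false, ← hN0 T true, sub_self, zero_div, dl_zero]
      rw [hD, zero_add, ← Finset.sum_add_distrib, Finset.sum_div]
      apply Finset.sum_congr rfl
      intro T _
      rw [← hN0 T false, ← hN0 T true]
      ring
    · have hN1 := hN.2 i hv
      rw [sum_split i (fun T => hh (MT s v o L T t x ^ 2)),
        sum_split i (fun T => DT s v o L T t x),
        sum_split i (fun T => hh (MT s v o L T (t + 1) (tr s v t x false) ^ 2)),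
        sum_split i (fun T => hh (MT s v o L T (t + 1) (tr s v t x true) ^ 2)),
        ← Finset.sum_add_distrib, Finset.sum_div, ← Finset.sum_add_distrib]
      apply Finset.sum_congr rfl
      intro T hT
      have hiT : i ∉ T := (mem_filter.1 hT).2
      have e1 := hN1.1 T hiT
      have e2 := hN1.2 (insert i T) (Finset.mem_insert_self i T)
      have hR : ¬ Rd v T t x := by
        rintro ⟨j, hj, hj2⟩
        rw [hv] at hj2
        injection hj2 with hj3
        exact hiT (hj3 ▸ hj)
      have hR2 : Rd v (insert i T) t x := ⟨i, Finset.mem_insert_self i T, hv⟩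
      have hD1 : DT s v o L (insert i T) t x = 0 := by
        unfold DT
        rw [if_pos hR2]
      have hD2 : DT s v o L T t x =
          dl ((MT s v o L T (t + 1) (tr s v t x false) + MT s v o L T (t + 1) (tr s v t x true)) / 2)
            ((MT s v o L T (t + 1) (tr s v t x false) - MT s v o L T (t + 1) (tr s v t x true)) / 2) := by
        unfold DT
        rw [if_neg hR]
      have hh0 : hh ((0 : ℝ) ^ 2) = 0 := by
        unfold hh
        simp
      rw [hD1, hD2, e2 false, e2 true, hh0, e1.1, e1.2]
      unfold dl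
      have e3 : ∀ a b : ℝ, (a + b) / 2 + (a - b) / 2 = a := by intro a b; ring
      have e4 : ∀ a b : ℝ, (a + b) / 2 - (a - b) / 2 = b := by intro a b; ring
      rw [e3, e4]
      ring

theorem rChnA (h1 : S_Nod) : S_ChnA := by
  intro w n L s v o A hok ho x hx
  exact Chn_gen h1 L s v o A hok ho L 0 x (by omega) hx

end Pool.Agent.MP3145b1.RBA
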