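import Pool.Agent.Lib.MP_3145b1_co.RB.Spec
import Pool.Agent.Lib.MP_3145b1_co.Q.Main
import Pool.Agent.Lib.MP_3145b1_co.Par

/-!
# MP_3145b1_co, project RBA: read-once branching programs of bounded width, any (adaptive) order

Definitions and basic lemmas. A program with `n` variables, width `w` and length `L`: nodes `(t, x)`,
`t ≤ L`, `x : Fin w`. The node `(t, x)`, `t < L`, reads the variable `v t x` (`none`: it reads nothing and
has one successor) and then goes to `(t + 1, tr s v t x b)`, `b` the bit read. `o x` is the output at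
the final node `(L, x)`.
-/

set_option autoImplicit false

namespace Pool.Agent.MP3145b1.RBA

open Finset Pool.Agent.MP3145b1 Pool.Agent.MP3145b1.RB

variable {w n : ℕ}

/-- the successor of the node `(t, x)` along the bit `b` -/
def tr (s : ℕ → Fin w → Bool → Fin w) (v : ℕ → Fin w → Option (Fin n)) (t : ℕ) (x : Fin w)
    (b : Bool) : Fin w := if v t x = none then s t x false else s t x b

/-- the bit read at the node `(t, x)` on the input `y` -/
def bit (v : ℕ → Fin w → Option (Fin n)) (t : ℕ) (x : Fin w) (y : Fin n → Bool) : Bool :=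
  (v t x).elim false y

/-- the node at time `t` on the path from `x0` with the bits `β` -/
def path (s : ℕ → Fin w → Bool → Fin w) (v : ℕ → Fin w → Option (Fin n)) (x0 : Fin w)
    (β : ℕ → Bool) : ℕ → Fin w
  | 0 => x0
  | t + 1 => tr s v t (path s v x0 β t) (β t)

/-- the node at time `t` on the input `y` -/
def run (s : ℕ → Fin w → Bool → Fin w) (v : ℕ → Fin w → Option (Fin n)) (x0 : Fin w)
    (y : Fin n → Bool) : ℕ → Fin w
  | 0 => x0
  | t + 1 => tr s v t (run s v x0 y t) (bit v t (run s v x0 y t) y)

/-- `f` is computed by a read-once branching program of width `w` (not necessarily oblivious): there are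
a length `L`, successors `s`, variables `v`, an initial node `x0` and a set `o` of accepting nodes such that
`f x = -1` if the final node on the input `x` is accepting and `f x = 1` otherwise, and no path reads a
variable twice. -/
def IsRobpA (w : ℕ) {n : ℕ} (f : (Fin n → Bool) → ℝ) : Prop :=
  ∃ (L : ℕ) (s : ℕ → Fin w → Bool → Fin w) (v : ℕ → Fin w → Option (Fin n)) (x0 : Fin w)
    (o : Fin w → Bool), (∀ x : Fin n → Bool, f x = if o (run s v x0 x L) then -1 else 1) ∧
    ∀ (β : ℕ → Bool) (i j : ℕ) (a : Fin n), i < j → j < L → v i (path s v x0 β i) = some a →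
      v j (path s v x0 β j) ≠ some a

/-- the function computed from the node `(t, x)` with `k` more steps -/
def fn (s : ℕ → Fin w → Bool → Fin w) (v : ℕ → Fin w → Option (Fin n)) (o : Fin w → ℝ) :
    ℕ → ℕ → Fin w → (Fin n → Bool) → ℝ
  | 0, _, x, _ => o x
  | k + 1, t, x, y => fn s v o k (t + 1) (tr s v t x (bit v t x y)) y

/-- `g` does not depend on the variable `i` -/
def Free (i : Fin n) (g : (Fin n → Bool) → ℝ) : Prop :=
  ∀ (y : Fin n → Bool) (b : Bool), g (Function.update y i b) = g y

/-- the read-once condition on a family `A` of nodes which is closed under successors -/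
def Ok (s : ℕ → Fin w → Bool → Fin w) (v : ℕ → Fin w → Option (Fin n)) (o : Fin w → ℝ) (L : ℕ)
    (A : ℕ → Finset (Fin w)) : Prop :=
  ∀ t, t < L → ∀ x ∈ A t, (∀ b, tr s v t x b ∈ A (t + 1)) ∧
    ∀ i, v t x = some i → ∀ b, Free i (fn s v o (L - (t + 1)) (t + 1) (tr s v t x b))

/-- the Fourier coefficient at `T` of the function computed from the node `(u, y)` -/
noncomputable def MT (s : ℕ → Fin w → Bool → Fin w) (v : ℕ → Fin w → Option (Fin n))
    (o : Fin w → ℝ) (L : ℕ) (T : Finset (Fin n)) (u : ℕ) (y : Fin w) : ℝ :=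
  coeff (fn s v o (L - u) u y) T

/-- the node `(u, y)` reads an element of `T` -/
def Rd (v : ℕ → Fin w → Option (Fin n)) (T : Finset (Fin n)) (u : ℕ) (y : Fin w) : Prop :=
  ∃ i ∈ T, v u y = some i

open Classical in
/-- the live nodes for `T`: no element of `T` has been read -/
noncomputable def AT (v : ℕ → Fin w → Option (Fin n)) (L : ℕ) (A : ℕ → Finset (Fin w))
    (T : Finset (Fin n)) : ℕ → Finset (Fin w) :=
  fun u => (A u).filter (fun y => u < L ∧ ¬ Rd v T u y)

open Classical in
/-- the entropy cost of the node `(u, y)` for the set `T` -/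
noncomputable def DT (s : ℕ → Fin w → Bool → Fin w) (v : ℕ → Fin w → Option (Fin n))
    (o : Fin w → ℝ) (L : ℕ) (T : Finset (Fin n)) (u : ℕ) (y : Fin w) : ℝ :=
  if Rd v T u y then 0 else
    dl ((MT s v o L T (u + 1) (tr s v u y false) + MT s v o L T (u + 1) (tr s v u y true)) / 2)
      ((MT s v o L T (u + 1) (tr s v u y false) - MT s v o L T (u + 1) (tr s v u y true)) / 2)

/-! ### Basic lemmas -/

theorem tr_none (s : ℕ → Fin w → Bool → Fin w) (v : ℕ → Fin w → Option (Fin n)) (t : ℕ) (x : Fin w)
    (h : v t x = none) (b : Bool) : tr s v t x b = tr s v t x false := by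
  unfold tr
  rw [if_pos h, if_pos h]

theorem bit_none (v : ℕ → Fin w → Option (Fin n)) (t : ℕ) (x : Fin w) (y : Fin n → Bool)
    (h : v t x = none) : bit v t x y = false := by
  unfold bit; rw [h]; rfl

theorem bit_some (v : ℕ → Fin w → Option (Fin n)) (t : ℕ) (x : Fin w) (y : Fin n → Bool) (i : Fin n)
    (h : v t x = some i) : bit v t x y = y i := by
  unfold bit; rw [h]; rfl

/-- `MT` one step: the function at `(u, y)` in terms of the successors -/
theorem fn_step (s : ℕ → Fin w → Bool → Fin w) (v : ℕ → Fin w → Option (Fin n)) (o : Fin w → ℝ)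
    (L u : ℕ) (hu : u < L) (y : Fin w) (z : Fin n → Bool) :
    fn s v o (L - u) u y z = fn s v o (L - (u + 1)) (u + 1) (tr s v u y (bit v u y z)) z := by
  rw [show L - u = (L - (u + 1)) + 1 by omega]
  rfl

theorem fn_sq (s : ℕ → Fin w → Bool → Fin w) (v : ℕ → Fin w → Option (Fin n)) (o : Fin w → ℝ)
    (ho : ∀ z, o z = 1 ∨ o z = -1) (k t : ℕ) (x : Fin w) (y : Fin n → Bool) :
    fn s v o k t x y = 1 ∨ fn s v o k t x y = -1 := by
  induction k generalizing t x with
  | zero => exact ho x
  | succ k ih => exact ih (t + 1) _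

theorem dl_zero (u : ℝ) : dl u 0 = 0 := by
  unfold dl hh
  simp

/-- splitting the subsets of the variables by the element `i` -/
theorem sum_split (i : Fin n) (φ : Finset (Fin n) → ℝ) :
    ∑ T, φ T = ∑ T ∈ univ.filter (fun T : Finset (Fin n) => i ∉ T), (φ T + φ (insert i T)) := by
  classical
  rw [← Finset.sum_filter_add_sum_filter_not univ (fun T : Finset (Fin n) => i ∉ T) φ,
    Finset.sum_add_distrib]
  congr 1
  symm
  refine Finset.sum_bij (fun T _ => insert i T) ?_ ?_ ?_ ?_
  · intro T _
    simp
  · intro T hT T' hT' h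
    have h1 : i ∉ T := (mem_filter.1 hT).2
    have h2 : i ∉ T' := (mem_filter.1 hT').2
    rw [← Finset.erase_insert h1, ← Finset.erase_insert h2, h]
  · intro T hT
    have h1 : i ∈ T := by
      have := (mem_filter.1 hT).2
      simpa using this
    refine ⟨T.erase i, mem_filter.2 ⟨mem_univ _, Finset.notMem_erase i T⟩, Finset.insert_erase h1⟩
  · intro T _
    rfl

/-- Parseval for functions with values `± 1` -/
theorem parseval (f : (Fin n → Bool) → ℝ) (hf : ∀ x, f x = 1 ∨ f x = -1) :
    ∑ T : Finset (Fin n), coeff f T ^ 2 = 1 :=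
  coeff_parseval par f hf

end Pool.Agent.MP3145b1.RBA
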