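import Pool.Agent.Lib.MP_3145b1_co.RBA.Spec

/-!
# MP_3145b1_co, project RBA, Emp: the empty set
-/

set_option autoImplicit false

namespace Pool.Agent.MP3145b1.RBA

open Finset Pool.Agent.MP3145b1 Pool.Agent.MP3145b1.RB

private theorem Emp_abs {w n : ℕ} (s : ℕ → Fin w → Bool → Fin w) (v : ℕ → Fin w → Option (Fin n))
    (o : Fin w → ℝ) (ho : ∀ z, o z = 1 ∨ o z = -1) (L u : ℕ) (y : Fin w) :
    |MT s v o L ∅ u y| ≤ 1 := by
  unfold MT coeff
  rw [abs_mul, abs_of_nonneg (by positivity : (0 : ℝ) ≤ 1 / 2 ^ n)]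
  have h : |∑ x : Fin n → Bool, fn s v o (L - u) u y x * ∏ i ∈ (∅ : Finset (Fin n)), (if x i then (-1 : ℝ) else 1)| ≤
      2 ^ n := by
    refine (abs_sum_le_sum_abs _ _).trans ?_
    calc ∑ x : Fin n → Bool, |fn s v o (L - u) u y x * ∏ i ∈ (∅ : Finset (Fin n)), (if x i then (-1 : ℝ) else 1)|
        ≤ ∑ _x : Fin n → Bool, (1 : ℝ) := by
          apply sum_le_sum
          intro x _
          rw [prod_empty, mul_one]
          rcases fn_sq s v o ho (L - u) u y x with h | h <;> rw [h] <;> norm_num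
      _ = 2 ^ n := by
          rw [sum_const, card_univ, Fintype.card_fun, Fintype.card_bool, Fintype.card_fin]
          simp
  calc 1 / 2 ^ n * _ ≤ 1 / 2 ^ n * (2 : ℝ) ^ n := mul_le_mul_of_nonneg_left h (by positivity)
    _ = 1 := by field_simp

private theorem Emp_cost (h2 : S_Two) (ε : ℝ) (h0 : 0 < ε) (h3 : ε ≤ 1 / 2) (c0 c1 a : ℝ)
    (hc0 : |c0| ≤ 1) (hc1 : |c1| ≤ 1) (ha : a = ((1 - c0) / 2 - (1 - c1) / 2) / 2) :
    dl ((c0 + c1) / 2) ((c0 - c1) / 2) ≤ (16 + 8 / ε) * |a| ^ (2 - ε) := by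
  have b0 := abs_le.mp hc0
  have b1 := abs_le.mp hc1
  have hW : |(c0 - c1) / 2| = 2 * |a| := by
    rw [ha, show (c0 - c1) / 2 = (-2) * (((1 - c0) / 2 - (1 - c1) / 2) / 2) by ring, abs_mul]
    norm_num
  have hU : |(c0 + c1) / 2| ≤ 1 := by
    rw [abs_le]
    constructor <;> linarith [b0.1, b0.2, b1.1, b1.2]
  have haa : |a| ≤ 1 := by
    rw [abs_le, ha]
    constructor <;> linarith [b0.1, b0.2, b1.1, b1.2]
  have e1 := h2 ε ((c0 + c1) / 2) ((c0 - c1) / 2) h0 (by linarith)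
  have e2 : |(c0 + c1) / 2| ^ ε ≤ 1 := Real.rpow_le_one (abs_nonneg _) hU h0.le
  have hP : 0 ≤ |a| ^ (2 - ε) := Real.rpow_nonneg (abs_nonneg _) _
  have e3 : |(c0 - c1) / 2| ^ (2 - ε) ≤ 4 * |a| ^ (2 - ε) := by
    rw [hW, Real.mul_rpow (by norm_num) (abs_nonneg _)]
    apply mul_le_mul_of_nonneg_right _ hP
    calc (2 : ℝ) ^ (2 - ε) ≤ 2 ^ (2 : ℝ) :=
          Real.rpow_le_rpow_of_exponent_le (by norm_num) (by linarith)
      _ = 4 := by norm_num
  have e4 : ((c0 - c1) / 2) ^ 2 ≤ 4 * |a| ^ (2 - ε) := by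
    rw [← sq_abs, hW, mul_pow]
    have h5 : |a| ^ 2 ≤ |a| ^ (2 - ε) := by
      rw [← Real.rpow_natCast |a| 2]
      exact Real.rpow_le_rpow_of_exponent_ge' (abs_nonneg _) haa (by linarith)
        (by push_cast; linarith)
    linarith
  have e5 : |(c0 - c1) / 2| ^ (2 - ε) * |(c0 + c1) / 2| ^ ε ≤ 4 * |a| ^ (2 - ε) := by
    calc |(c0 - c1) / 2| ^ (2 - ε) * |(c0 + c1) / 2| ^ ε
        ≤ |(c0 - c1) / 2| ^ (2 - ε) * 1 :=
          mul_le_mul_of_nonneg_left e2 (Real.rpow_nonneg (abs_nonneg _) _)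
      _ ≤ 4 * |a| ^ (2 - ε) := by rw [mul_one]; exact e3
  have hε : 0 ≤ 2 / ε := by positivity
  calc dl ((c0 + c1) / 2) ((c0 - c1) / 2)
      ≤ 4 * ((c0 - c1) / 2) ^ 2 + 2 / ε * (|(c0 - c1) / 2| ^ (2 - ε) * |(c0 + c1) / 2| ^ ε) := e1
    _ ≤ 4 * (4 * |a| ^ (2 - ε)) + 2 / ε * (4 * |a| ^ (2 - ε)) :=
        add_le_add (mul_le_mul_of_nonneg_left e4 (by norm_num)) (mul_le_mul_of_nonneg_left e5 hε)
    _ = (16 + 8 / ε) * |a| ^ (2 - ε) := by ring

theorem rEmpA (h1 : S_Fb) (h2 : S_Two) (h3 : S_Mgt) (h4 : S_Rst) : S_EmpA := by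
  intro w n L ε h0 hε hVR s v o A hOk ho x hx
  have hC := Emp_abs s v o ho L
  obtain ⟨m, hm⟩ : ∃ m : ℕ → Fin w → ℝ, ∀ i y, m i y = (1 - MT s v o L ∅ i y) / 2 :=
    ⟨_, fun _ _ => rfl⟩
  have hm01 : ∀ u y, 0 ≤ m u y ∧ m u y ≤ 1 := by
    intro u y
    have h := abs_le.mp (hC u y)
    rw [hm]
    constructor <;> linarith [h.1, h.2]
  have hcard : ∀ u, (AT v L A ∅ u).card ≤ w := by
    intro u
    refine (Finset.card_le_univ _).trans ?_
    rw [Fintype.card_fin]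
  have hMg : ∀ u, ∀ y ∈ AT v L A ∅ u, Mg (tr s v) m u y := by
    intro u y hy
    have h := h3 w n L s v o A hOk ∅ u y hy
    unfold Mg at h ⊢
    rw [hm, hm, hm, h]
    ring
  have f1 := h1 w ε h0 hε hVR (Fin w) (tr s v) m (AT v L A ∅) L 0 x hcard hMg hm01
  have f2 := h1 w ε h0 hε hVR (Fin w) (tr s v) (fun u y => 1 - m u y) (AT v L A ∅) L 0 x hcard
    (by
      intro u y hy
      have h := hMg u y hy
      unfold Mg at h ⊢
      linarith)
    (by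
      intro u y
      have h := hm01 u y
      constructor <;> linarith [h.1, h.2])
  have hcP : cP (tr s v) (fun u y => 1 - m u y) ε = cP (tr s v) m ε := by
    funext u y
    unfold cP
    have e : stp (tr s v) (fun u y => 1 - m u y) u y = - stp (tr s v) m u y := by
      unfold stp
      ring
    rw [e, abs_neg]
  rw [hcP] at f2
  rw [h4 w n L s v o A hOk ∅ x hx]
  have f3 : EV (tr s v) (AT v L A ∅) (DT s v o L ∅) 0 L 0 x ≤
      EV (tr s v) (AT v L A ∅) (fun i y => (16 + 8 / ε) * cP (tr s v) m ε i y) 0 L 0 x := by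
    apply EV_mono
    · intro u y _
      unfold cP DT
      have hr : ¬ Rd v (∅ : Finset (Fin n)) u y := by
        rintro ⟨i, hi, _⟩
        exact absurd hi (Finset.notMem_empty i)
      rw [if_neg hr]
      apply Emp_cost h2 ε h0 hε _ _ _ (hC _ _) (hC _ _)
      unfold stp
      rw [hm, hm]
    · intro u y
      exact le_rfl
  rw [EV_mul0] at f3
  have hε8 : 0 ≤ 8 / ε := by positivity
  have hp := hm01 0 x
  have hp2 : EV (tr s v) (AT v L A ∅) (cP (tr s v) m ε) 0 L 0 x ≤ 700 * (2 * m 0 x * (1 - m 0 x)) := by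
    rcases le_total (m 0 x) (1 / 2) with h | h
    · refine f1.trans ?_
      nlinarith [hp.1]
    · refine f2.trans ?_
      nlinarith [hp.2]
  have hfin : 1 - MT s v o L ∅ 0 x ^ 2 = 4 * m 0 x * (1 - m 0 x) := by
    rw [hm]
    ring
  rw [hfin]
  calc _ ≤ (16 + 8 / ε) * EV (tr s v) (AT v L A ∅) (cP (tr s v) m ε) 0 L 0 x := f3
    _ ≤ (16 + 8 / ε) * (700 * (2 * m 0 x * (1 - m 0 x))) :=
        mul_le_mul_of_nonneg_left hp2 (by linarith)
    _ = (5600 + 2800 / ε) * (4 * m 0 x * (1 - m 0 x)) := by ring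

end Pool.Agent.MP3145b1.RBA
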