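import Pool.Agent.Lib.MP_3145b1_co.RBA.Spec

/-!
# MP_3145b1_co, project RBA: final statement
-/

set_option autoImplicit false

namespace Pool.Agent.MP3145b1.RBA

open Finset Pool.Agent.MP3145b1 Pool.Agent.MP3145b1.RB

private theorem Fin_entA (t : ℝ) : t * Real.logb 2 (1 / t) = hh t / Real.log 2 := by
  unfold hh Real.negMulLog Real.logb
  rw [one_div, Real.log_inv]
  ring

private theorem Fin_runA {w n : ℕ} (s : ℕ → Fin w → Bool → Fin w) (v : ℕ → Fin w → Option (Fin n))
    (x0 : Fin w) (O : Fin w → ℝ) (y : Fin n → Bool) (k t : ℕ) :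
    fn s v O k t (run s v x0 y t) y = O (run s v x0 y (t + k)) := by
  induction k generalizing t with
  | zero => rfl
  | succ k ih =>
    have e : fn s v O (k + 1) t (run s v x0 y t) y = fn s v O k (t + 1) (run s v x0 y (t + 1)) y := rfl
    rw [e, ih (t + 1)]
    congr 2
    ring

theorem rFinA (h1 : S_Var) (h2 : S_Roa) (h3 : S_PrgA) : S_FinA := by
  intro w
  rcases Nat.eq_zero_or_pos w with rfl | hw
  · refine ⟨1, one_pos, ?_⟩
    rintro n f ⟨L, s, v, x0, o, hf⟩
    exact x0.elim0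
  obtain ⟨ε, hε, hε2, hVR⟩ := h1 w hw
  have hlog : 0 < Real.log 2 := Real.log_pos (by norm_num)
  obtain ⟨C0, hC0⟩ : ∃ C0 : ℝ, C0 = 5604 + 3010 / ε := ⟨_, rfl⟩
  have hC0p : 0 < C0 := by
    rw [hC0]
    positivity
  refine ⟨C0 / Real.log 2, by positivity, ?_⟩
  rintro n f ⟨L, s, v, x0, o, hf, hro⟩
  obtain ⟨O, hO⟩ : ∃ O : Fin w → ℝ, O = fun z => if o z then -1 else 1 := ⟨_, rfl⟩
  have hO1 : ∀ z, O z = 1 ∨ O z = -1 := by
    intro z
    rw [hO]
    show (if o z then (-1 : ℝ) else 1) = 1 ∨ (if o z then (-1 : ℝ) else 1) = -1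
    by_cases hz : o z
    · right
      rw [if_pos hz]
    · left
      rw [if_neg hz]
  have hfF : f = fn s v O L 0 x0 := by
    funext x
    have h := Fin_runA s v x0 O x L 0
    rw [Nat.zero_add] at h
    rw [hf x]
    refine Eq.trans ?_ h.symm
    rw [hO]
  have hf1 : ∀ x, f x = 1 ∨ f x = -1 := by
    intro x
    rw [hfF]
    exact fn_sq s v O hO1 L 0 x0 x
  obtain ⟨A, hxA, hA⟩ := h2 w n L s v O x0 hro
  have hE : specEntropy f = (∑ T : Finset (Fin n), hh (coeff (fn s v O L 0 x0) T ^ 2)) / Real.log 2 := by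
    rw [Finset.sum_div, hfF]
    unfold specEntropy
    refine Finset.sum_congr rfl fun S _ => ?_
    rw [Fin_entA]
  have hmain : specEntropy f ≤ C0 / Real.log 2 * influence f := by
    have h := h3 w n L ε hε hε2 hVR s v O A hA hO1 x0 hxA
    rw [← hC0, ← hfF] at h
    rw [hE, ← hfF, div_mul_eq_mul_div]
    exact div_le_div_of_nonneg_right h hlog.le
  exact ⟨hmain, Q.large f hf1 _ hmain⟩

end Pool.Agent.MP3145b1.RBA
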