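import Pool.Agent.Lib.MP_3145b1_co.RBA.Spec

/-!
# MP_3145b1_co, project RBA, module Lev: one set T
-/

set_option autoImplicit false

namespace Pool.Agent.MP3145b1.RBA

open Finset Pool.Agent.MP3145b1 Pool.Agent.MP3145b1.RB

/-- **LevA** (one set `T`) -/
theorem rLevA (h1 : S_Sq) (h2 : S_F3) (h3 : S_Two) (h4 : S_Mgt) (h5 : S_Rst) : S_LevA := by
  intro w n L ε he he2 hV s v o A hA T x hx
  have hm := h4 w n L s v o A hA T
  rw [h5 w n L s v o A hA T x hx]
  have hc : ∀ u, ∀ y ∈ AT v L A T u, DT s v o L T u y ≤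
      4 * stp (tr s v) (MT s v o L T) u y ^ 2 +
        2 / ε * (|stp (tr s v) (MT s v o L T) u y| ^ (2 - ε) * |MT s v o L T u y| ^ ε) := by
    intro u y hy
    have hr : ¬ Rd v T u y := by
      classical
      simp only [AT, Finset.mem_filter] at hy
      exact hy.2.2
    have hmu := hm u y hy
    unfold Mg at hmu
    have ht := h3 ε (MT s v o L T u y) (stp (tr s v) (MT s v o L T) u y) he (by linarith)
    unfold DT
    rw [if_neg hr, ← hmu]
    exact ht
  have e1 := EV_mono (tr s v) (AT v L A T) (p := (0 : ℕ → Fin w → ℝ)) (p' := 0) hc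
    (fun _ _ => le_rfl) L 0 x
  rw [EV_add0, EV_mul0, EV_mul0] at e1
  have e2 := h1 (Fin w) (tr s v) (MT s v o L T) (AT v L A T) L 0 x hm
  have hcard : ∀ u, (AT v L A T u).card ≤ w := by
    intro u
    calc (AT v L A T u).card ≤ (univ : Finset (Fin w)).card := Finset.card_le_univ _
      _ = w := by simp
  have e3 := h2 w ε he he2 hV (Fin w) (tr s v) (MT s v o L T) (AT v L A T) L 0 x hcard hm
  have e4 : 0 ≤ MT s v o L T 0 x ^ 2 := sq_nonneg _
  have e5 := mul_le_mul_of_nonneg_left e3 (by positivity : (0 : ℝ) ≤ 2 / ε)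
  rw [e2] at e1
  refine e1.trans ?_
  have e6 : (4 + 210 / ε) * EV (tr s v) (AT v L A T) 0 (fun u y => MT s v o L T u y ^ 2) L 0 x =
      4 * EV (tr s v) (AT v L A T) 0 (fun u y => MT s v o L T u y ^ 2) L 0 x +
      2 / ε * (105 * EV (tr s v) (AT v L A T) 0 (fun u y => MT s v o L T u y ^ 2) L 0 x) := by
    ring
  rw [e6]
  linarith

end Pool.Agent.MP3145b1.RBA
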