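import Pool.Agent.Lib.MP_3145b1_co.RBA.Spec

/-!
# MP_3145b1_co, project RBA: the martingale property of the coefficients at the live nodes
-/

set_option autoImplicit false

namespace Pool.Agent.MP3145b1.RBA

open Finset Pool.Agent.MP3145b1 Pool.Agent.MP3145b1.RB

theorem rMgt (h : S_Nod) : S_Mgt := by
  intro w n L s v o A hOk T u y hy
  classical
  unfold AT at hy
  rw [Finset.mem_filter] at hy
  obtain ⟨hyA, huL, hRd⟩ := hy
  obtain ⟨h1, h2⟩ := h w n L s v o A hOk u huL y hyA
  unfold Mg
  cases hv : v u y with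
  | none =>
    rw [← h1 hv T false, ← h1 hv T true]
    ring
  | some i =>
    have hi : i ∉ T := fun hiT => hRd ⟨i, hiT, hv⟩
    exact ((h2 i hv).1 T hi).1

end Pool.Agent.MP3145b1.RBA
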