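import Pool.Agent.Lib.MP_3145b1_co.RBA.Spec

/-!
# MP_3145b1_co, project RBA: the coefficients at a node
-/

set_option autoImplicit false

namespace Pool.Agent.MP3145b1.RBA

open Finset Pool.Agent.MP3145b1 Pool.Agent.MP3145b1.RB

/-- the coefficients at the node `(t, x)`, `t < L` -/
private theorem Nod_MT {w n : ℕ} (L : ℕ) (s : ℕ → Fin w → Bool → Fin w)
    (v : ℕ → Fin w → Option (Fin n)) (o : Fin w → ℝ) (T : Finset (Fin n)) (t : ℕ) (ht : t < L)
    (x : Fin w) : MT s v o L T t x =
      coeff (fun y => fn s v o (L - (t + 1)) (t + 1) (tr s v t x (bit v t x y)) y) T := by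
  unfold MT
  congr 1
  funext y
  exact fn_step s v o L t ht x y

theorem rNod (h1 : S_Spt) : S_Nod := by
  intro w n L s v o A hA t ht x hx
  constructor
  · intro hv T b
    rw [Nod_MT L s v o T t ht x]
    unfold MT
    congr 1
    funext y
    rw [tr_none s v t x hv (bit v t x y), tr_none s v t x hv b]
  · intro i hv
    have hF := (hA t ht x hx).2 i hv
    obtain ⟨hS1, hS2⟩ := h1 n i (fn s v o (L - (t + 1)) (t + 1) (tr s v t x false))
      (fn s v o (L - (t + 1)) (t + 1) (tr s v t x true)) (hF false) (hF true)
    have hG : (fun y : Fin n → Bool => fn s v o (L - (t + 1)) (t + 1) (tr s v t x (bit v t x y)) y) =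
        fun y => if y i then fn s v o (L - (t + 1)) (t + 1) (tr s v t x true) y
          else fn s v o (L - (t + 1)) (t + 1) (tr s v t x false) y := by
      funext y
      rw [bit_some v t x y i hv]
      cases hy : y i
      · simp
      · simp
    constructor
    · intro T hT
      rw [Nod_MT L s v o T t ht x, Nod_MT L s v o (insert i T) t ht x, hG]
      exact hS1 T hT
    · intro T hT b
      cases b
      · exact (hS2 T hT).1
      · exact (hS2 T hT).2

end Pool.Agent.MP3145b1.RBA
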