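import Pool.Agent.Lib.MP_3145b1_co.RBA.SpecO

/-!
# MP_3145b1_co, project RBA: oblivious programs are a special case
-/

set_option autoImplicit false

namespace Pool.Agent.MP3145b1.RBA

open Finset Pool.Agent.MP3145b1 Pool.Agent.MP3145b1.RB

/-- the variables of an oblivious program -/
private def Obl_v {w n : ℕ} (π : Equiv.Perm (Fin n)) : ℕ → Fin w → Option (Fin n) :=
  fun t _ => if h : t < n then some (π ⟨t, h⟩) else none

private theorem Obl_v_some {w n : ℕ} (π : Equiv.Perm (Fin n)) (t : ℕ) (ht : t < n) (z : Fin w) :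
    Obl_v π t z = some (π ⟨t, ht⟩) := by
  unfold Obl_v
  rw [dif_pos ht]

private theorem Obl_run {w n : ℕ} (π : Equiv.Perm (Fin n)) (s : ℕ → Fin w → Bool → Fin w)
    (x0 : Fin w) (x : Fin n → Bool) (t : ℕ) (ht : t ≤ n) :
    RBA.run s (Obl_v π) x0 x t = RB.run s x0 (RB.bits π x) t := by
  induction t with
  | zero => rfl
  | succ t ih =>
    have ht' : t < n := ht
    have h1 := ih ht'.le
    have h2 : RBA.run s (Obl_v π) x0 x (t + 1) =
        tr s (Obl_v π) t (RBA.run s (Obl_v π) x0 x t)
          (bit (Obl_v π) t (RBA.run s (Obl_v π) x0 x t) x) := rfl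
    have h3 : RB.run s x0 (RB.bits π x) (t + 1) =
        s t (RB.run s x0 (RB.bits π x) t) (RB.bits π x t) := rfl
    have h4 : RB.bits π x t = x (π ⟨t, ht'⟩) := by
      unfold RB.bits
      rw [dif_pos ht']
    rw [h2, h3, h4, h1, bit_some (Obl_v π) t _ x _ (Obl_v_some π t ht' _)]
    unfold tr
    rw [if_neg (by rw [Obl_v_some π t ht']; exact Option.some_ne_none _)]

theorem rObl : S_Obl := by
  rintro w n f ⟨π, s, x0, o, hf⟩
  refine ⟨n, s, Obl_v π, x0, o, fun x => ?_, ?_⟩
  · rw [hf x, Obl_run π s x0 x n le_rfl]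
  · intro β i j a hij hj hi hja
    have hi' : i < n := hij.trans hj
    rw [Obl_v_some π i hi', Option.some.injEq] at hi
    rw [Obl_v_some π j hj, Option.some.injEq] at hja
    have h1 := π.injective (hi.trans hja.symm)
    have h2 : i = j := congrArg Fin.val h1
    omega

end Pool.Agent.MP3145b1.RBA
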