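import Pool.Agent.Lib.MP_3145b1_co.RBA.Spec

/-!
# MP_3145b1_co, project RBA: the entropy of a program (`S_PrgA`)
-/

set_option autoImplicit false

namespace Pool.Agent.MP3145b1.RBA

open Finset Pool.Agent.MP3145b1 Pool.Agent.MP3145b1.RB

theorem rPrgA (h1 : S_ChnA) (h2 : S_LevA) (h3 : S_Ifl) (h4 : S_EmpA) : S_PrgA := by
  intro w n L ε hε hε' hV s v o A hok ho x hx
  have hMT : ∀ T : Finset (Fin n), MT s v o L T 0 x = coeff (fn s v o L 0 x) T := fun T => rfl
  have hf : ∀ y, fn s v o L 0 x y = 1 ∨ fn s v o L 0 x y = -1 := fun y => fn_sq s v o ho L 0 x y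
  obtain ⟨I, hI⟩ : ∃ I : ℝ, I = ∑ T : Finset (Fin n), (T.card : ℝ) * MT s v o L T 0 x ^ 2 := ⟨_, rfl⟩
  have hinf : influence (fn s v o L 0 x) = I := by
    rw [hI]
    rfl
  have hc := h1 w n L s v o A hok ho x hx
  rw [EV_sum0 (tr s v) A univ (fun (T : Finset (Fin n)) (u : ℕ) (y : Fin w) => DT s v o L T u y)] at hc
  have hsplit : ∑ T : Finset (Fin n), EV (tr s v) A (DT s v o L T) 0 L 0 x =
      EV (tr s v) A (DT s v o L ∅) 0 L 0 x +
      ∑ T ∈ univ.filter (fun T : Finset (Fin n) => T ≠ ∅), EV (tr s v) A (DT s v o L T) 0 L 0 x := by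
    rw [← Finset.sum_filter_add_sum_filter_not univ (fun T : Finset (Fin n) => T ≠ ∅), add_comm]
    congr 1
    have e : univ.filter (fun T : Finset (Fin n) => ¬ T ≠ ∅) = {∅} := by
      ext T
      simp
    rw [e, Finset.sum_singleton]
  have hlev : ∑ T ∈ univ.filter (fun T : Finset (Fin n) => T ≠ ∅), EV (tr s v) A (DT s v o L T) 0 L 0 x ≤
      (4 + 210 / ε) * I := by
    rw [hI, ← h3 w n L s v o A hok x hx, Finset.mul_sum]
    apply Finset.sum_le_sum
    intro T _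
    exact h2 w n L ε hε hε' hV s v o A hok T x hx
  have hemp := h4 w n L ε hε hε' hV s v o A hok ho x hx
  have hpar : 1 - MT s v o L ∅ 0 x ^ 2 ≤ I := by
    have e1 : ∑ T : Finset (Fin n), MT s v o L T 0 x ^ 2 = 1 := parseval _ hf
    have e2 : ∑ T : Finset (Fin n), MT s v o L T 0 x ^ 2 ≤
        ∑ T : Finset (Fin n), ((T.card : ℝ) * MT s v o L T 0 x ^ 2 +
          if T = ∅ then MT s v o L ∅ 0 x ^ 2 else 0) := by
      apply Finset.sum_le_sum
      intro T _
      by_cases hT : T = ∅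
      · subst hT
        simp
      · rw [if_neg hT, add_zero]
        have h7 : (1 : ℝ) ≤ (T.card : ℝ) := by
          exact_mod_cast Finset.card_pos.mpr (Finset.nonempty_iff_ne_empty.mpr hT)
        nlinarith [sq_nonneg (MT s v o L T 0 x)]
    rw [Finset.sum_add_distrib, ← hI, Finset.sum_ite_eq', if_pos (Finset.mem_univ _), e1] at e2
    linarith
  have hε2 : 0 ≤ 5600 + 2800 / ε := by positivity
  have h8 : (5600 + 2800 / ε) * (1 - MT s v o L ∅ 0 x ^ 2) ≤ (5600 + 2800 / ε) * I :=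
    mul_le_mul_of_nonneg_left hpar hε2
  have e9 : (5604 + 3010 / ε) * I = (5600 + 2800 / ε) * I + (4 + 210 / ε) * I := by
    ring
  have e10 : ∑ T : Finset (Fin n), hh (coeff (fn s v o L 0 x) T ^ 2) =
      ∑ T : Finset (Fin n), hh (MT s v o L T 0 x ^ 2) := rfl
  rw [hinf, e10, hc, e9]
  have hc2 : ∑ T : Finset (Fin n), EV (tr s v) A (fun (u : ℕ) (y : Fin w) => DT s v o L T u y) 0 L 0 x =
      ∑ T : Finset (Fin n), EV (tr s v) A (DT s v o L T) 0 L 0 x := rfl
  rw [hc2, hsplit]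
  linarith

end Pool.Agent.MP3145b1.RBA
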