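import Pool.Agent.Lib.MP_3145b1_co.RBA.Spec

/-! MP_3145b1_co, RBA, module Roa: the read-once condition. -/

set_option autoImplicit false

namespace Pool.Agent.MP3145b1.RBA

open Finset Pool.Agent.MP3145b1 Pool.Agent.MP3145b1.RB

private theorem Roa_path_congr {w n : ℕ} (s : ℕ → Fin w → Bool → Fin w)
    (v : ℕ → Fin w → Option (Fin n)) (x0 : Fin w) (t : ℕ) (β β' : ℕ → Bool)
    (h : ∀ i, i < t → β i = β' i) : path s v x0 β t = path s v x0 β' t := by
  induction t with
  | zero => rfl
  | succ t ih =>
    have h1 := ih (fun i hi => h i (by omega))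
    show tr s v t (path s v x0 β t) (β t) = tr s v t (path s v x0 β' t) (β' t)
    rw [h1, h t (by omega)]

private theorem Roa_succ {w n : ℕ} (s : ℕ → Fin w → Bool → Fin w)
    (v : ℕ → Fin w → Option (Fin n)) (x0 : Fin w) (t : ℕ) (β : ℕ → Bool) (b : Bool) :
    path s v x0 (Function.update β t b) (t + 1) = tr s v t (path s v x0 β t) b := by
  show tr s v t (path s v x0 (Function.update β t b) t) (Function.update β t b t) = _
  rw [Function.update_self, Roa_path_congr s v x0 t (Function.update β t b) β
    (fun i hi => Function.update_of_ne (by omega) _ _)]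

private theorem Roa_free {w n : ℕ} (s : ℕ → Fin w → Bool → Fin w)
    (v : ℕ → Fin w → Option (Fin n)) (o : Fin w → ℝ) (x0 : Fin w) (a : Fin n) (k : ℕ) :
    ∀ (u : ℕ) (β : ℕ → Bool),
      (∀ β' : ℕ → Bool, (∀ i, i < u → β' i = β i) → ∀ j, u ≤ j → j < u + k →
        v j (path s v x0 β' j) ≠ some a) →
      Free a (fn s v o k u (path s v x0 β u)) := by
  induction k with
  | zero =>
    intro u β _ y c
    rfl
  | succ k ih =>
    intro u β h y c
    have hz : v u (path s v x0 β u) ≠ some a := h β (fun _ _ => rfl) u le_rfl (by omega)
    have hb : bit v u (path s v x0 β u) (Function.update y a c) = bit v u (path s v x0 β u) y := by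
      rcases hv : v u (path s v x0 β u) with _ | i
      · rw [bit_none v u _ _ hv, bit_none v u _ _ hv]
      · rw [bit_some v u _ _ i hv, bit_some v u _ _ i hv]
        have hne : i ≠ a := by
          intro hia
          rw [hia] at hv
          exact hz hv
        exact Function.update_of_ne hne _ _
    show fn s v o k (u + 1) (tr s v u (path s v x0 β u)
        (bit v u (path s v x0 β u) (Function.update y a c))) (Function.update y a c) =
      fn s v o k (u + 1) (tr s v u (path s v x0 β u) (bit v u (path s v x0 β u) y)) y
    rw [hb, ← Roa_succ s v x0 u β (bit v u (path s v x0 β u) y)]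
    refine ih (u + 1) (Function.update β u (bit v u (path s v x0 β u) y)) ?_ y c
    intro β' hβ' j hj1 hj2
    refine h β' (fun i hi => ?_) j (by omega) (by omega)
    rw [hβ' i (by omega)]
    exact Function.update_of_ne (by omega) _ _

theorem rRoa : S_Roa := by
  classical
  intro w n L s v o x0 hro
  refine ⟨fun t => univ.filter (fun x => ∃ β : ℕ → Bool, path s v x0 β t = x), ?_, ?_⟩
  · rw [mem_filter]
    exact ⟨mem_univ _, fun _ => false, rfl⟩
  · intro t ht x hx
    obtain ⟨β, hβ⟩ := (mem_filter.1 hx).2
    constructor
    · intro b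
      rw [mem_filter]
      refine ⟨mem_univ _, Function.update β t b, ?_⟩
      rw [Roa_succ, hβ]
    · intro i hi b
      have h1 : tr s v t x b = path s v x0 (Function.update β t b) (t + 1) := by
        rw [Roa_succ, hβ]
      rw [h1]
      apply Roa_free
      intro β' hβ' j hj1 hj2
      have h2 : path s v x0 β' t = x := by
        rw [← hβ]
        apply Roa_path_congr
        intro i' hi'
        rw [hβ' i' (by omega)]
        exact Function.update_of_ne (by omega) _ _
      exact hro β' t j i (by omega) (by omega) (by rw [h2]; exact hi)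

end Pool.Agent.MP3145b1.RBA
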