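import Pool.Agent.Lib.MP_3145b1_co.RBA.Spec

set_option autoImplicit false

namespace Pool.Agent.MP3145b1.RBA

open Finset Pool.Agent.MP3145b1 Pool.Agent.MP3145b1.RB

open Classical in
private theorem Rst_main (h1 : S_Van) {w n : ℕ} (L : ℕ) (s : ℕ → Fin w → Bool → Fin w)
    (v : ℕ → Fin w → Option (Fin n)) (o : Fin w → ℝ) (A : ℕ → Finset (Fin w))
    (hok : Ok s v o L A) (T : Finset (Fin n)) :
    ∀ (k t : ℕ) (x : Fin w), t + k = L → x ∈ A t →
      EV (tr s v) A (DT s v o L T) 0 k t x = EV (tr s v) (AT v L A T) (DT s v o L T) 0 k t x := by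
  intro k
  induction k with
  | zero =>
    intro t x _ _
    rw [EV_zero, EV_zero]
  | succ k ih =>
    intro t x hk hx
    have htL : t < L := by omega
    have hok1 := hok t htL x hx
    by_cases hrd : Rd v T t x
    · have hnot : x ∉ AT v L A T t := by
        intro h
        unfold AT at h
        exact (mem_filter.1 h).2.2 hrd
      rw [EV_mem _ _ _ _ _ _ _ hx, EV_not _ _ _ _ _ _ _ hnot]
      have hD : DT s v o L T t x = 0 := by
        unfold DT
        rw [if_pos hrd]
      obtain ⟨i, hiT, hvi⟩ := hrd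
      have hF := hok1.2 i hvi
      have hLk : L - (t + 1) = k := by omega
      rw [hLk] at hF
      have e0 := (h1 w n L s v o A hok T i hiT k (t + 1) (tr s v t x false) (by omega)
        (hok1.1 false) (hF false)).1
      have e1 := (h1 w n L s v o A hok T i hiT k (t + 1) (tr s v t x true) (by omega)
        (hok1.1 true) (hF true)).1
      rw [hD, e0, e1]
      simp
    · have hmem : x ∈ AT v L A T t := by
        unfold AT
        exact mem_filter.2 ⟨hx, htL, hrd⟩
      rw [EV_mem _ _ _ _ _ _ _ hx, EV_mem _ _ _ _ _ _ _ hmem,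
        ih (t + 1) (tr s v t x false) (by omega) (hok1.1 false),
        ih (t + 1) (tr s v t x true) (by omega) (hok1.1 true)]

theorem rRst (h1 : S_Van) (_h2 : S_Nod) : S_Rst := by
  intro w n L s v o A hok T x hx
  exact Rst_main h1 L s v o A hok T L 0 x (by omega) hx

end Pool.Agent.MP3145b1.RBA
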