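import Pool.Agent.Lib.MP_3145b1_co.RBA.Def

/-!
# MP_3145b1_co, project RBA (architect helper45; the variation property is project RB of helper95)

THEOREM. For every `w` there is a constant `C` such that every Boolean function `f` with a read-once
branching program of width `w` (`IsRobpA`: the variable read may depend on the node, every path reads
a variable at most once, no bound for the length) has `Ent(f) ≤ C I(f)` and `max |f^(S)| ≥ 2^(- C I(f) / 2)`.

RULES. Module X: file Pool/Agent/Lib/MP_3145b1_co/RBA/X.lean, `import Pool.Agent.Lib.MP_3145b1_co.RBA.Spec`,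
`set_option autoImplicit false`, `namespace Pool.Agent.MP3145b1.RBA`, `open Finset Pool.Agent.MP3145b1 Pool.Agent.MP3145b1.RB`,
final theorem `theorem rX (h1 : S_A) ... : S_X` (the statements under Uses, in this order, are the hypotheses).
Auxiliary lemmas private, names X_. READ FIRST: RB/Def.lean (EV, EV_mem, EV_not, EV_le, EV_mono, EV_sum0, EV_add0, EV_mul0,
EV_nonneg, Mg.child, Mg.abs) and RBA/Def.lean. `EV s A c p n t x` = expected cost `c` and payoff `p` of the walk with at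
most `n` steps that stops outside `A`. Comparisons are inductions on the number of steps (for all `t`, `x`).
Below `s' = tr s v`, `c_b = MT s v o L T (u + 1) (tr s v u y b)`.
-/

set_option autoImplicit false

namespace Pool.Agent.MP3145b1.RBA

open Finset Pool.Agent.MP3145b1 Pool.Agent.MP3145b1.RB

/-- **Sq** (energy). Uses: nothing.
Proof. Induction on `n` (for all `t, x`): `x ∉ A t` or `n = 0`: `0 = m^2 - m^2`. Otherwise the average of
`(m y')^2` over the two children is `(m x)^2 + stp^2` (Mg.child). -/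
def S_Sq : Prop := ∀ (σ : Type) (s : ℕ → σ → Bool → σ) (m : ℕ → σ → ℝ) (A : ℕ → Finset σ) (n t : ℕ) (x : σ),
  (∀ u, ∀ y ∈ A u, Mg s m u y) →
  EV s A (fun u y => stp s m u y ^ 2) 0 n t x = EV s A 0 (fun u y => m u y ^ 2) n t x - m t x ^ 2

/-- **F3** (the variation against the second moment). Uses: nothing.
Proof. `F n u y` = the left EV at `(u, y)`, `Q n u y = EV s A 0 (m^2) n u y`. Claim: `F n u y ≤ 105 Q n u y - 57 (m u y)^2` for all `u, y`; strong
induction on `n` (outer induction). `y ∉ A u` or `n = 0`: `F = 0`, `Q = m^2`. Let `y ∈ A u`, `n = n' + 1`, `d = stp s m u y`, `a = |m u y|`.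
Fact (P): `|d|^(2-ε) |m|^ε ≤ (max |d| |m|)^2` (rpow_le_rpow, rpow_add for a positive base; base `0` separately).
(1) `a = 0` or `a/2 < |d|`: the cost is `≤ 4 d^2` (`a = 0`: `0^ε = 0`; otherwise `max ≤ 2 |d|`), so `F n ≤ 4 d^2 + avg (105 Q n' - 57 m^2)` over the children
`= 4 d^2 + 105 Q n - 57 (a^2 + d^2)`. Done.
(2) `0 < a`, `|d| ≤ a/2`. `R v = (A v).filter (fun z => |m v z - m u y| < a/2 ∧ |stp s m v z| ≤ a/2)`, `E k v z = EV s R (cP s m ε) 0 k v z`, `λ = (3 a/2)^ε`.
Inner claim, for all `k ≤ n`, `v`, `z` with (`z ∈ R v` or `k < n`): `F k v z ≤ λ E k v z + 105 Q k v z - 57 (m v z)^2 - 48 (a^2/4 - (m v z - m u y)^2)`. Induction on `k`.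
 `z ∈ R v`: `a/2 < |m v z| < 3a/2`. `k = 0`: `F = E = 0`, `Q = m^2`, `48 (m v z)^2 ≥ 48 a^2/4`. `k + 1`: `F (k+1) = cost + avg F k`, `cost ≤ λ cP`, `E (k+1) = cP + avg E k`, the claim for the children
 (`k < n`), `avg m^2 = (m v z)^2 + d_z^2`, `avg (m - m u y)^2 = (m v z - m u y)^2 + d_z^2` (`d_z = stp s m v z`), and `- 57 d_z^2 + 48 d_z^2 ≤ 0`.
 `z ∉ R v`, `k < n` (`E k v z = 0`): (α) `a/2 ≤ |m v z - m u y|`: the last term is `≥ 0`, outer induction. Now `|m v z - m u y| < a/2`, so `a/2 < |m v z| < 3a/2`.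
 (β) `z ∉ A v` or `k = 0`: `F = 0`, `Q = m^2`, as above. (γ) `z ∈ A v`, `k = k' + 1`, `a/2 < |d_z|`: `cost ≤ (max |d_z| |m v z|)^2 ≤ 9 d_z^2`, outer induction for the children (`k'`):
 `F k ≤ 9 d_z^2 + 105 Q k - 57 ((m v z)^2 + d_z^2)` and `48 d_z^2 ≥ 48 a^2/4`.
For `k = n`, `z = y`: `F n u y ≤ λ E + 105 Q - 57 a^2 - 12 a^2`, and `VR w ε` for `R`, `l = m u y - a`, `b = 2 a` (children of `z ∈ R v` are at distance `< a` from `m u y`): `E n u y ≤ 3 (2a)^(2-ε)`,
`λ E ≤ (2a)^ε 3 (2a)^(2-ε) = 12 a^2`. Done. -/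
def S_F3 : Prop := ∀ (w : ℕ) (ε : ℝ), 0 < ε → ε ≤ 1 / 2 → VR w ε → ∀ (σ : Type) (s : ℕ → σ → Bool → σ) (m : ℕ → σ → ℝ)
  (A : ℕ → Finset σ) (n t : ℕ) (x : σ), (∀ u, (A u).card ≤ w) → (∀ u, ∀ y ∈ A u, Mg s m u y) →
  EV s A (fun u y => |stp s m u y| ^ (2 - ε) * |m u y| ^ ε) 0 n t x ≤
    105 * EV s A 0 (fun u y => m u y ^ 2) n t x

/-- **Spt** (splitting one variable). Uses: nothing.
Proof. `coeff g T = 2^(-n) ∑_y g y ∏_{j ∈ T} sgn_j y`. The map `y ↦ Function.update y i (!y i)` is an involution (Equiv.sum_comp / Function.Involutive.toPerm). (2) If `g` is free of `i` and `i ∈ T`, it changes the sign of the product (Finset.mul_prod_erase),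
so `coeff g T = - coeff g T = 0`. (1) `G y = if y i then g1 y else g0 y = (g0 y + g1 y)/2 + sg y (g0 y - g1 y)/2`, `sg y = if y i then -1 else 1`. For `h` free of `i` and `i ∉ T`: `∑_y sg y h y ∏_T = 2^n coeff h (insert i T) = 0` (Finset.prod_insert, (2)), and
`∑_y sg y h y ∏_{insert i T} = ∑_y h y ∏_T` (`sg^2 = 1`). -/
def S_Spt : Prop := ∀ (n : ℕ) (i : Fin n) (g0 g1 : (Fin n → Bool) → ℝ), Free i g0 → Free i g1 →
  (∀ T : Finset (Fin n), i ∉ T →
    coeff (fun y => if y i then g1 y else g0 y) T = (coeff g0 T + coeff g1 T) / 2 ∧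
    coeff (fun y => if y i then g1 y else g0 y) (insert i T) = (coeff g0 T - coeff g1 T) / 2) ∧
  (∀ T : Finset (Fin n), i ∈ T → coeff g0 T = 0 ∧ coeff g1 T = 0)

/-- **Nod** (the coefficients at a node). Uses: S_Spt.
Proof. `fn_step`. If `v t x = none` then `bit = false` and the functions at `(t, x)` and at the successor are equal. If `v t x = some i` then
`bit v t x y = y i` and the function at `(t, x)` is `fun y => if y i then g1 y else g0 y`, `g_b` the function at the successor along `b`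
(`false` = `g0`, `true` = `g1`), free of `i` by `Ok`. -/
def S_Nod : Prop := ∀ (w n L : ℕ) (s : ℕ → Fin w → Bool → Fin w) (v : ℕ → Fin w → Option (Fin n)) (o : Fin w → ℝ)
  (A : ℕ → Finset (Fin w)), Ok s v o L A → ∀ t, t < L → ∀ x ∈ A t,
  (v t x = none → ∀ (T : Finset (Fin n)) (b : Bool), MT s v o L T t x = MT s v o L T (t + 1) (tr s v t x b)) ∧
  (∀ i, v t x = some i →
    (∀ T : Finset (Fin n), i ∉ T →
      MT s v o L T t x = (MT s v o L T (t + 1) (tr s v t x false) + MT s v o L T (t + 1) (tr s v t x true)) / 2 ∧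
      MT s v o L (insert i T) t x =
        (MT s v o L T (t + 1) (tr s v t x false) - MT s v o L T (t + 1) (tr s v t x true)) / 2) ∧
    (∀ T : Finset (Fin n), i ∈ T → ∀ b : Bool, MT s v o L T (t + 1) (tr s v t x b) = 0))

/-- **Van** (after a variable of `T` has been read). Uses: S_Spt.
Proof. (a) `P u y`: the function at `(u, y)`, `u ≤ L`, is free of `i`. If `y ∈ A u`, `u < L` and `P u y` then `P (u+1) (tr s v u y b)` for both `b`: `v u y = none`: the function is the same (tr_none). `v u y = some j`, `j = i`: `Ok`.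
`j ≠ i`: `f_b y' = f_b (update y' j b) = F (update y' j b)` (`f_b` free of `j` by `Ok`; `F` = the function at `(u, y)`), so `f_b (update y' i c) = F (update (update y' i c) j b) = F (update (update y' j b) i c) = F (update y' j b) = f_b y'` (Function.update_comm).
(b) `P u y` implies `MT s v o L T u y = 0` (S_Spt (2) with `g0 = g1`). (c) The claim by induction on `k`: payoffs `(MT)^2 = 0`; costs: `DT = 0` at a node with `P` (if no element of `T` is read there, both coefficients in `dl` are `0` by (a), (b), `dl_zero`). -/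
def S_Van : Prop := ∀ (w n L : ℕ) (s : ℕ → Fin w → Bool → Fin w) (v : ℕ → Fin w → Option (Fin n)) (o : Fin w → ℝ)
  (A : ℕ → Finset (Fin w)), Ok s v o L A → ∀ (T : Finset (Fin n)) (i : Fin n), i ∈ T → ∀ (k t : ℕ) (x : Fin w), t + k = L → x ∈ A t →
  Free i (fn s v o k t x) →
  EV (tr s v) A (DT s v o L T) 0 k t x = 0 ∧
  EV (tr s v) (AT v L A T) 0 (fun u y => MT s v o L T u y ^ 2) k t x = 0

/-- **ChnA** (chain of the entropies). Uses: S_Nod.
Proof. `H t x = ∑ T, hh ((MT s v o L T t x)^2)`. Claim: for `t + k = L`, `x ∈ A t`: `H t x = EV s' A (fun u y => ∑ T, DT s v o L T u y) 0 k t x`. Induction on `k`. `k = 0`: the function is the constant `o x`, its coefficients are `o x` (`T = ∅`) and `0`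
(S_Nod is not needed: `coeff` of a constant, or `∑ T, coeff^2 = 1` (parseval) and the coefficient of `∅` is `o x`, square `1`), `hh 1 = hh 0 = 0`. `k + 1`, `v t x = none`: all `DT = dl c 0 = 0` (the two successors are equal, tr_none), `MT` at `x` and at the successor are equal.
`v t x = some i`: sum_split for `i`; for `i ∉ T` with `c_0, c_1`: `hh (U^2) + hh (W^2) = dl U W + (hh (c_0^2) + hh (c_1^2))/2` (`U = (c_0+c_1)/2`, `W = (c_0-c_1)/2`, `U + W = c_0`, `U - W = c_1`); `DT = dl U W` for `i ∉ T` and `0` for `insert i T`; at the successors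
`hh ((MT (insert i T))^2) = hh 0 = 0`. `EV_mem`, induction. -/
def S_ChnA : Prop := ∀ (w n L : ℕ) (s : ℕ → Fin w → Bool → Fin w) (v : ℕ → Fin w → Option (Fin n)) (o : Fin w → ℝ)
  (A : ℕ → Finset (Fin w)), Ok s v o L A → (∀ z, o z = 1 ∨ o z = -1) → ∀ x ∈ A 0,
  ∑ T : Finset (Fin n), hh (MT s v o L T 0 x ^ 2) =
    EV (tr s v) A (fun u y => ∑ T : Finset (Fin n), DT s v o L T u y) 0 L 0 x

/-- **Mgt** (martingales). Uses: S_Nod.
Proof. `y ∈ AT v L A T u`: `y ∈ A u`, `u < L`, no element of `T` is read. `v u y = none`: S_Nod. `v u y = some i`: `i ∉ T`, S_Nod. -/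
def S_Mgt : Prop := ∀ (w n L : ℕ) (s : ℕ → Fin w → Bool → Fin w) (v : ℕ → Fin w → Option (Fin n)) (o : Fin w → ℝ)
  (A : ℕ → Finset (Fin w)), Ok s v o L A → ∀ (T : Finset (Fin n)), ∀ u, ∀ y ∈ AT v L A T u, Mg (tr s v) (MT s v o L T) u y

/-- **Rst** (restriction to the live nodes). Uses: S_Van, S_Nod.
Proof. Claim: for `t + k = L`, `x ∈ A t`: `EV s' A (DT ..) 0 k t x = EV s' (AT ..) (DT ..) 0 k t x`. Induction on `k`. `k + 1`: if `x ∈ AT t` both sides are averages with the same cost (the successors are in `A (t+1)` by `Ok`). If `x ∉ AT t` then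
`v t x = some i`, `i ∈ T`: the right side is `0`, the cost on the left is `0` (`Rd`), and at the successors S_Van (free of `i` by `Ok`; `L - (t+1) = k`). -/
def S_Rst : Prop := ∀ (w n L : ℕ) (s : ℕ → Fin w → Bool → Fin w) (v : ℕ → Fin w → Option (Fin n)) (o : Fin w → ℝ)
  (A : ℕ → Finset (Fin w)), Ok s v o L A → ∀ (T : Finset (Fin n)), ∀ x ∈ A 0,
  EV (tr s v) A (DT s v o L T) 0 L 0 x = EV (tr s v) (AT v L A T) (DT s v o L T) 0 L 0 x

/-- **LevA** (one set `T`). Uses: S_Sq, S_F3, S_Two, S_Mgt, S_Rst.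
Proof. S_Rst. On `AT u` (not `Rd`) the cost is `dl U W` with `U = MT T u y` (S_Mgt) and `W = stp s' (MT T) u y`, by S_Two `≤ 4 stp^2 + (2/ε) (|stp|^(2-ε) |MT|^ε)`. EV_mono, EV_add0, EV_mul0, S_Sq (and `m^2 ≥ 0`), S_F3 (`(AT u).card ≤ w`: Fin w):
`≤ 4 Q + (2/ε) 105 Q`. -/
def S_LevA : Prop := ∀ (w n L : ℕ) (ε : ℝ), 0 < ε → ε ≤ 1 / 2 → VR w ε → ∀ (s : ℕ → Fin w → Bool → Fin w)
  (v : ℕ → Fin w → Option (Fin n)) (o : Fin w → ℝ) (A : ℕ → Finset (Fin w)), Ok s v o L A → ∀ (T : Finset (Fin n)), ∀ x ∈ A 0,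
  EV (tr s v) A (DT s v o L T) 0 L 0 x ≤
    (4 + 210 / ε) * EV (tr s v) (AT v L A T) 0 (fun u y => MT s v o L T u y ^ 2) L 0 x

/-- **Ifl** (the influence). Uses: S_Nod, S_Van.
Proof. Claim: for `t + k = L`, `x ∈ A t`: `∑ T ≠ ∅, EV s' (AT T) 0 (MT T ^2) k t x = ∑ T, |T| (MT T t x)^2`. Induction on `k`. `k = 0`: the payoff at `(L, x)` is the square of a coefficient of a constant, `0` for `T ≠ ∅`; both sides are `0`.
`k + 1`. `v t x = none`: `x ∈ AT T t` for all `T`, the successors are equal (tr_none), `MT` does not change. `v t x = some i`: for `i ∈ T` the EV is the payoff `(MT T t x)^2`; for `i ∉ T` it is the average of the EVs at the successors; by S_Van the EVs at the successors are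
`0` for `i ∈ T`. So the left side is `∑_{T ∋ i} (MT T t x)^2` plus the average of the left sides at the successors (induction). On the right (sum_split): for `i ∉ T`, `|T| U^2 + (|T| + 1) W^2 = |T| (c_0^2 + c_1^2)/2 + W^2`, and `∑_T |T| (MT T)^2` at the successors has
no terms with `i ∈ T` (S_Nod). -/
def S_Ifl : Prop := ∀ (w n L : ℕ) (s : ℕ → Fin w → Bool → Fin w) (v : ℕ → Fin w → Option (Fin n)) (o : Fin w → ℝ)
  (A : ℕ → Finset (Fin w)), Ok s v o L A → ∀ x ∈ A 0,
  ∑ T ∈ univ.filter (fun T : Finset (Fin n) => T ≠ ∅), EV (tr s v) (AT v L A T) 0 (fun u y => MT s v o L T u y ^ 2) L 0 x =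
    ∑ T : Finset (Fin n), (T.card : ℝ) * MT s v o L T 0 x ^ 2

/-- **EmpA** (the empty set). Uses: S_Fb, S_Two, S_Mgt, S_Rst.
Proof. As in RB/Emp.lean (copy it). S_Rst for `T = ∅`. `m u y = (1 - MT ∅ u y)/2` is in `[0, 1]` (`|MT ∅| ≤ 1`: mean of values `± 1`, fn_sq, `coeff _ ∅` has the product `1`), a martingale on `AT ∅` (S_Mgt). The arguments of `dl` are `U`, `|U| ≤ 1`, and `W = - 2 stp s' m u y`, so by S_Two
`DT ≤ (16 + 8/ε) cP s' m ε`. S_Fb for `m` and for `1 - m` gives `(16 + 8/ε) 700 min (p, 1-p)`, `p = m 0 x`, `min (p, 1-p) ≤ 2 p (1-p) = (1 - (MT ∅ 0 x)^2)/2`. -/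
def S_EmpA : Prop := ∀ (w n L : ℕ) (ε : ℝ), 0 < ε → ε ≤ 1 / 2 → VR w ε → ∀ (s : ℕ → Fin w → Bool → Fin w)
  (v : ℕ → Fin w → Option (Fin n)) (o : Fin w → ℝ) (A : ℕ → Finset (Fin w)), Ok s v o L A → (∀ z, o z = 1 ∨ o z = -1) → ∀ x ∈ A 0,
  EV (tr s v) A (DT s v o L ∅) 0 L 0 x ≤ (5600 + 2800 / ε) * (1 - MT s v o L ∅ 0 x ^ 2)

/-- **Roa** (the read-once condition). Uses: nothing.
Proof. `A t` = the nodes `path s v x0 β t` for some `β`. Successors: `tr s v t (path β t) b = path β' (t+1)`, `β' = Function.update β t b`; `path s v x0 β t` only depends on the `β i`, `i < t` (induction). Claim (for all `k`, `u` and `β`): if for all `β'` with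
`β' i = β i` for `i < u` and all `j` with `u ≤ j`, `j < u + k`: `v j (path β' j) ≠ some a`, then `Free a (fn s v o k u (path β u))`. Induction on `k`: let `z = path β u`; `v u z ≠ some a`, so `bit v u z` is the same (`b`) for `y` and for `update y a c`,
and the next node is `path (update β u b) (u+1)`; the hypothesis holds for it (`u + 1`). For `Ok`: `x = path β t`, `v t x = some i`, successor along `b` = `path β1 (t+1)`, `β1 = update β t b`; for `β'` which agrees with `β1` below `t + 1`: `path β' t = x`, so by the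
read-once condition `v j (path β' j) ≠ some i` for `t < j < L`; `u = t + 1`, `k = L - (t+1)`. -/
def S_Roa : Prop := ∀ (w n L : ℕ) (s : ℕ → Fin w → Bool → Fin w) (v : ℕ → Fin w → Option (Fin n)) (o : Fin w → ℝ) (x0 : Fin w),
  (∀ (β : ℕ → Bool) (i j : ℕ) (a : Fin n), i < j → j < L → v i (path s v x0 β i) = some a →
    v j (path s v x0 β j) ≠ some a) → ∃ A : ℕ → Finset (Fin w), x0 ∈ A 0 ∧ Ok s v o L A

/-- **PrgA** (entropy of a program). Uses: S_ChnA, S_LevA, S_Ifl, S_EmpA.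
Proof. S_ChnA, EV_sum0: the entropy is `∑ T, EV s' A (DT T) 0 L 0 x`. `T = ∅`: S_EmpA. `T ≠ ∅`: S_LevA, sum: S_Ifl (`I = ∑ T, |T| (MT T 0 x)^2`). `MT s v o L T 0 x = coeff f0 T` with `f0 = fn s v o L 0 x`, values `± 1` (fn_sq), so by parseval
`1 - (MT ∅)^2 = ∑_{T ≠ ∅} (MT T)^2 ≤ I`. Total `(5600 + 2800/ε + 4 + 210/ε) I`. -/
def S_PrgA : Prop := ∀ (w n L : ℕ) (ε : ℝ), 0 < ε → ε ≤ 1 / 2 → VR w ε → ∀ (s : ℕ → Fin w → Bool → Fin w)
  (v : ℕ → Fin w → Option (Fin n)) (o : Fin w → ℝ) (A : ℕ → Finset (Fin w)), Ok s v o L A → (∀ z, o z = 1 ∨ o z = -1) → ∀ x ∈ A 0,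
  ∑ T : Finset (Fin n), hh (coeff (fn s v o L 0 x) T ^ 2) ≤ (5604 + 3010 / ε) * influence (fn s v o L 0 x)

/-- **FinA** (final statement). Uses: S_Var, S_Roa, S_PrgA (S_Var is in RB/Spec.lean).
Proof. See RB/Fin.lean. `w = 0`: there is no `x0`. `w ≥ 1`: `ε` from S_Var, `C = (5604 + 3010/ε)/log 2`. `O z = if o z then -1 else 1`, `f = fn s v O L 0 x0`: claim `fn s v O k t (run s v x0 y t) y = O (run s v x0 y (t + k))` (induction on `k`). S_Roa gives `A`.
S_PrgA; `t logb 2 (1/t) = hh t / log 2`. The second claim: `Q.large f _ (C * influence f)`. -/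
def S_FinA : Prop := ∀ w : ℕ, ∃ C : ℝ, 0 < C ∧ ∀ (n : ℕ) (f : (Fin n → Bool) → ℝ), IsRobpA w f →
  specEntropy f ≤ C * influence f ∧ ∃ S : Finset (Fin n), (2 : ℝ) ^ (-(C * influence f / 2)) ≤ |coeff f S|

end Pool.Agent.MP3145b1.RBA
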