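import Pool.Agent.Lib.MP_3145b1_co.RBA.Spec
import Pool.Agent.Lib.MP_3145b1_co.RB.SpecF

/-!
# MP_3145b1_co, project RBA: oblivious programs are a special case
-/

set_option autoImplicit false

namespace Pool.Agent.MP3145b1.RBA

open Finset Pool.Agent.MP3145b1

/-- **Obl** (oblivious programs are a special case). Uses: nothing. File RBA/Obl.lean imports this file.
Proof. `L = n`, the same `s`, `x0`, `o`, and `v t x = if h : t < n then some (π ⟨t, h⟩) else none`. For `t ≤ n`: `RBA.run s v x0 x t = RB.run s x0 (RB.bits π x) t` (induction: at the times `t < n` one has `tr s v t z b = s t z b` and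
`bit v t z x = x (π ⟨t, h⟩)`). Read-once: `π` is injective. -/
def S_Obl : Prop := ∀ (w n : ℕ) (f : (Fin n → Bool) → ℝ), RB.IsRobp w f → IsRobpA w f

end Pool.Agent.MP3145b1.RBA
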