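import Pool.Agent.Lib.MP_3145b1_co.RBA.Spec

/-!
# MP_3145b1_co, project RBA, Spt: splitting one variable
-/

set_option autoImplicit false

namespace Pool.Agent.MP3145b1.RBA

open Finset Pool.Agent.MP3145b1 Pool.Agent.MP3145b1.RB

/-- the flip of the bit `i` -/
private def Spt_flip {n : ℕ} (i : Fin n) (y : Fin n → Bool) : Fin n → Bool :=
  Function.update y i (!y i)

private theorem Spt_flip_inv {n : ℕ} (i : Fin n) : Function.Involutive (Spt_flip i) := by
  intro y
  unfold Spt_flip
  rw [Function.update_idem, Function.update_self, Bool.not_not, Function.update_eq_self]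

private theorem Spt_sgn {n : ℕ} (i : Fin n) (T : Finset (Fin n)) (hi : i ∉ T) (y : Fin n → Bool) :
    sgn y (insert i T) = (if y i then (-1 : ℝ) else 1) * sgn y T := by
  unfold sgn
  rw [Finset.prod_insert hi]

private theorem Spt_sgn_flip {n : ℕ} (i : Fin n) (T : Finset (Fin n)) (hi : i ∉ T)
    (y : Fin n → Bool) : sgn (Spt_flip i y) (insert i T) = - sgn y (insert i T) := by
  rw [Spt_sgn i T hi, Spt_sgn i T hi]
  have h1 : sgn (Spt_flip i y) T = sgn y T := by
    unfold sgn
    apply Finset.prod_congr rfl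
    intro j hj
    have hne : j ≠ i := fun h => hi (h ▸ hj)
    unfold Spt_flip
    rw [Function.update_of_ne hne]
  have h2 : Spt_flip i y i = !y i := by
    unfold Spt_flip
    rw [Function.update_self]
  rw [h1, h2]
  cases y i <;> simp

private theorem Spt_coeff {n : ℕ} (g : (Fin n → Bool) → ℝ) (T : Finset (Fin n)) :
    coeff g T = (1 / (2 : ℝ) ^ n) * ∑ x : Fin n → Bool, g x * sgn x T := rfl

private theorem Spt_zero {n : ℕ} (i : Fin n) (g : (Fin n → Bool) → ℝ) (hg : Free i g)
    (T : Finset (Fin n)) (hi : i ∉ T) : coeff g (insert i T) = 0 := by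
  rw [Spt_coeff]
  have h : ∑ x : Fin n → Bool, g x * sgn x (insert i T) =
      - ∑ x : Fin n → Bool, g x * sgn x (insert i T) := by
    rw [← Finset.sum_neg_distrib,
      ← Equiv.sum_comp (Function.Involutive.toPerm (Spt_flip i) (Spt_flip_inv i))
        (fun x => g x * sgn x (insert i T))]
    apply Finset.sum_congr rfl
    intro x _
    have h1 : (Function.Involutive.toPerm (Spt_flip i) (Spt_flip_inv i)) x = Spt_flip i x := rfl
    rw [h1, Spt_sgn_flip i T hi]
    have h2 : g (Spt_flip i x) = g x := hg x _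
    rw [h2]
    ring
  have h0 : ∑ x : Fin n → Bool, g x * sgn x (insert i T) = 0 := by linarith
  rw [h0, mul_zero]

private theorem Spt_one {n : ℕ} (i : Fin n) (g0 g1 : (Fin n → Bool) → ℝ) (T : Finset (Fin n))
    (hi : i ∉ T) :
    coeff (fun y => if y i then g1 y else g0 y) T =
      (coeff g0 T + coeff g1 T) / 2 + (coeff g0 (insert i T) - coeff g1 (insert i T)) / 2 := by
  simp only [Spt_coeff]
  have h : ∑ x : Fin n → Bool, (if x i then g1 x else g0 x) * sgn x T =
      (∑ x : Fin n → Bool, g0 x * sgn x T + ∑ x : Fin n → Bool, g1 x * sgn x T) / 2 +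
      (∑ x : Fin n → Bool, g0 x * sgn x (insert i T) -
        ∑ x : Fin n → Bool, g1 x * sgn x (insert i T)) / 2 := by
    rw [← Finset.sum_add_distrib, ← Finset.sum_sub_distrib, Finset.sum_div, Finset.sum_div,
      ← Finset.sum_add_distrib]
    apply Finset.sum_congr rfl
    intro x _
    rw [Spt_sgn i T hi]
    cases x i <;> simp <;> ring
  rw [h]
  ring

private theorem Spt_two {n : ℕ} (i : Fin n) (g0 g1 : (Fin n → Bool) → ℝ) (T : Finset (Fin n))
    (hi : i ∉ T) :
    coeff (fun y => if y i then g1 y else g0 y) (insert i T) =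
      (coeff g0 (insert i T) + coeff g1 (insert i T)) / 2 + (coeff g0 T - coeff g1 T) / 2 := by
  simp only [Spt_coeff]
  have h : ∑ x : Fin n → Bool, (if x i then g1 x else g0 x) * sgn x (insert i T) =
      (∑ x : Fin n → Bool, g0 x * sgn x (insert i T) +
        ∑ x : Fin n → Bool, g1 x * sgn x (insert i T)) / 2 +
      (∑ x : Fin n → Bool, g0 x * sgn x T - ∑ x : Fin n → Bool, g1 x * sgn x T) / 2 := by
    rw [← Finset.sum_add_distrib, ← Finset.sum_sub_distrib, Finset.sum_div, Finset.sum_div,
      ← Finset.sum_add_distrib]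
    apply Finset.sum_congr rfl
    intro x _
    rw [Spt_sgn i T hi]
    cases x i <;> simp <;> ring
  rw [h]
  ring

theorem rSpt : S_Spt := by
  intro n i g0 g1 h0 h1
  refine ⟨?_, ?_⟩
  · intro T hT
    have a0 := Spt_zero i g0 h0 T hT
    have a1 := Spt_zero i g1 h1 T hT
    constructor
    · rw [Spt_one i g0 g1 T hT, a0, a1]
      ring
    · rw [Spt_two i g0 g1 T hT, a0, a1]
      ring
  · intro T hT
    have hT' : insert i (T.erase i) = T := Finset.insert_erase hT
    have a0 := Spt_zero i g0 h0 (T.erase i) (Finset.notMem_erase i T)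
    have a1 := Spt_zero i g1 h1 (T.erase i) (Finset.notMem_erase i T)
    rw [hT'] at a0 a1
    exact ⟨a0, a1⟩

end Pool.Agent.MP3145b1.RBA
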