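import Pool.Agent.Lib.MP_3145b1_co.RBA.Spec

/-!
# MP_3145b1_co, project RBA: the energy identity
-/

set_option autoImplicit false

namespace Pool.Agent.MP3145b1.RBA

open Finset Pool.Agent.MP3145b1 Pool.Agent.MP3145b1.RB

theorem rSq : S_Sq := by
  intro σ s m A n t x hM
  induction n generalizing t x with
  | zero =>
    simp only [EV_zero]
    simp
  | succ n ih =>
    by_cases hx : x ∈ A t
    · rw [EV_mem _ _ _ _ _ _ _ hx, EV_mem _ _ _ _ _ _ _ hx, ih, ih]
      have h := hM t x hx
      unfold Mg at h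
      simp only [stp, Pi.zero_apply]
      rw [h]
      ring
    · rw [EV_not _ _ _ _ _ _ _ hx, EV_not _ _ _ _ _ _ _ hx]
      simp

end Pool.Agent.MP3145b1.RBA
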