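import Pool.Agent.Lib.MP_3145b1_co.RBA.Spec

/-! # MP_3145b1_co, project RBA, module Van: after a variable of `T` has been read -/

set_option autoImplicit false

namespace Pool.Agent.MP3145b1.RBA

open Finset Pool.Agent.MP3145b1 Pool.Agent.MP3145b1.RB

private theorem Van_coeff (h : S_Spt) {n : ℕ} (i : Fin n) (g : (Fin n → Bool) → ℝ) (hg : Free i g)
    (T : Finset (Fin n)) (hT : i ∈ T) : coeff g T = 0 :=
  ((h n i g g hg hg).2 T hT).1

private theorem Van_step {w n L : ℕ} (s : ℕ → Fin w → Bool → Fin w) (v : ℕ → Fin w → Option (Fin n))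
    (o : Fin w → ℝ) (A : ℕ → Finset (Fin w)) (hOk : Ok s v o L A) (i : Fin n) (u : ℕ) (y : Fin w)
    (hu : u < L) (hy : y ∈ A u) (hP : Free i (fn s v o (L - u) u y)) (b : Bool) :
    Free i (fn s v o (L - (u + 1)) (u + 1) (tr s v u y b)) := by
  rcases hv : v u y with _ | j
  · intro z c
    rw [tr_none s v u y hv b]
    have h1 := fn_step s v o L u hu y z
    have h2 := fn_step s v o L u hu y (Function.update z i c)
    rw [bit_none v u y _ hv] at h1 h2
    rw [← h1, ← h2]
    exact hP z c
  · by_cases hji : j = i
    · subst hji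
      exact (hOk u hu y hy).2 j hv b
    · have hfj : Free j (fn s v o (L - (u + 1)) (u + 1) (tr s v u y b)) := (hOk u hu y hy).2 j hv b
      have key : ∀ z : Fin n → Bool, fn s v o (L - (u + 1)) (u + 1) (tr s v u y b) z =
          fn s v o (L - u) u y (Function.update z j b) := by
        intro z
        have h1 := fn_step s v o L u hu y (Function.update z j b)
        rw [bit_some v u y _ j hv, Function.update_self] at h1
        rw [h1]
        exact (hfj z b).symm
      intro z c
      rw [key, key, Function.update_comm (fun h => hji h.symm)]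
      exact hP _ c

theorem rVan (h1 : S_Spt) : S_Van := by
  intro w n L s v o A hOk T i hi k
  have hMT : ∀ (t : ℕ) (x : Fin w), Free i (fn s v o (L - t) t x) → MT s v o L T t x = 0 :=
    fun t x hf => Van_coeff h1 i _ hf T hi
  induction k with
  | zero =>
    intro t x ht hx hf
    have hL : L - t = 0 := by omega
    have hm : MT s v o L T t x = 0 := hMT t x (by rw [hL]; exact hf)
    refine ⟨rfl, ?_⟩
    rw [EV_zero, hm]
    norm_num
  | succ k ih =>
    intro t x ht hx hf
    have hu : t < L := by omega
    have hL : L - t = k + 1 := by omega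
    have hL1 : L - (t + 1) = k := by omega
    have hf' : Free i (fn s v o (L - t) t x) := by rw [hL]; exact hf
    have hs : ∀ b, Free i (fn s v o (L - (t + 1)) (t + 1) (tr s v t x b)) :=
      Van_step s v o A hOk i t x hu hx hf'
    have hA : ∀ b, tr s v t x b ∈ A (t + 1) := (hOk t hu x hx).1
    have hi2 : ∀ b, EV (tr s v) A (DT s v o L T) 0 k (t + 1) (tr s v t x b) = 0 ∧
        EV (tr s v) (AT v L A T) 0 (fun u y => MT s v o L T u y ^ 2) k (t + 1) (tr s v t x b) = 0 :=
      fun b => ih (t + 1) (tr s v t x b) (by omega) (hA b) (by rw [← hL1]; exact hs b)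
    constructor
    · rw [EV_mem _ _ _ _ _ _ _ hx, (hi2 false).1, (hi2 true).1]
      have hD : DT s v o L T t x = 0 := by
        unfold DT
        split_ifs
        · rfl
        · rw [hMT _ _ (hs false), hMT _ _ (hs true)]
          norm_num
          exact dl_zero 0
      rw [hD]
      norm_num
    · by_cases hxA : x ∈ AT v L A T t
      · rw [EV_mem _ _ _ _ _ _ _ hxA, (hi2 false).2, (hi2 true).2]
        simp
      · rw [EV_not _ _ _ _ _ _ _ hxA, hMT t x hf']
        norm_num

end Pool.Agent.MP3145b1.RBA
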